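import Pool.Agent.TH766.IQ.Pairs

/-!
# Abundance for klt pairs on iterated quotients

Let `Y` be a member of the class `IsTower` of projective varieties over `ℂ` (given by their function
fields), with Kodaira dimension `a ≥ 0`. This is the smallest class which contains the point, the
varieties of general type, the uniruled varieties, the irreducible components of the projective
varieties given by nested sums of high powers of linear forms or of monomials, and the abelian covers
of products of projective spaces over arbitrary arrangements of hyperplanes with multiplicities at
least `n i + 2`, and which contains with `Y` all quotients `(Y × ∏ C j) / G`, for curves `C j` and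
finite groups `G` acting on the product and permuting the curves, such that `MixedPos` holds, for
instance such that the fixed locus of each `g ≠ 1` on the product of the curves is empty or of
codimension at least `7`.

Let `X` be a projective manifold birational to such a quotient `(Y × ∏ C j) / G`, and let `Δ ≥ 0` be a
`ℚ`-divisor on `X` which is at most the pull-back of a divisor from the quotient of the product of the
curves `C j` of genus at least two. If `K_X + Δ` is pseudo-effective, for instance nef, then no curve
is rational, and

  `κ (K_X + Δ) = ν (K_X + Δ) = a + (number of the curves of genus at least two)`.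

In particular, if `(X, Δ)` is klt and `K_X + Δ` is nef, then it is semiample (by a known theorem, which
is not part of the Lean text).

The result combines the theorems on the basic classes (`Pool.Agent.TH710.ND`, helper710, and
`Pool.Agent.TH756.PN`, helper756) with the one on pairs on quotients of products of a variety and
curves in the starting repository (`Pool.Agent.W619`), where `κ = ν` is an assumption on the variety,
and with a proof that the numerical dimension of a variety is at most its dimension
(`Pool.Agent.TH766.NT`).
-/

set_option autoImplicit false
set_option linter.overlappingInstances false

open FF IntermediateField Pool.Agent.W619.PQ Pool.Agent.W619.TW Pool.Agent.W619.X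
open Pool.Agent.W619.Y Pool.Agent.TH766.IQ

namespace Pool.Agent.Results.MP_e23cd6_ag.IteratedQuotientPairs

/-- **Klt pairs on iterated quotients.** Let `Y` be a member of the class of iterated quotients with
function field `M`, dimension `d` and Kodaira dimension `a ≥ 0`, `F j` (`j < s`) the function fields of
curves `C j`, `L` the function field of the product of `Y` and the curves, `G` a finite group of
automorphisms of `L` which permutes the curves through `σ` (`IsProductAction`), such that `MixedPos`
holds. Let `X` be a projective manifold birational to the quotient, and let `Δ ≥ 0` be a `ℚ`-divisor
on `X`, with multiplicity `δ v` along the divisor `v`, which is at most the pull-back of a divisor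
from the quotient of the product of the curves of genus at least two (those with index in `P`). If
`K_X + Δ` is pseudo-effective, then no curve is rational, and `κ (K_X + Δ) = ν (K_X + Δ) = a + |P|`
(the inequalities `κ ≥ a + |P|` and `ν ≤ a + |P|` are stated; `κ ≤ ν` holds always). -/
theorem result (d s a : ℕ) (L : Type) [Field L] [Algebra ℂ L] (M : IntermediateField ℂ L)
    (hM : IsTower M d (a : WithBot ℕ)) (F : Fin s → IntermediateField ℂ L)
    (G : Subgroup (L ≃ₐ[ℂ] L)) [Finite G] (σ : G →* Equiv.Perm (Fin s))
    (hG : IsProductAction d s M F G σ) (h : MixedPos G σ F)
    (δ : Place ℂ (fixedField G) → ℚ) (hδ : ∀ v, 0 ≤ δ v) (P : Set (Fin s))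
    (hP : ∀ j, j ∈ P ↔ (¬ ∃ t : F j, ℂ⟮t⟯ = ⊤) ∧ ¬ IsElliptic (F j))
    (hδP : BoundedBy (⨆ j : P, F j) (d + s) δ)
    (hpe : PairPsef ℂ (fixedField G) (d + s) δ) :
    (∀ j, ¬ ∃ t : F j, ℂ⟮t⟯ = ⊤) ∧
      PairKodGe ℂ (fixedField G) (d + s) δ (a + P.ncard) ∧
      PairNumLe ℂ (fixedField G) (d + s) δ (a + P.ncard) :=
  klt_pairs M hM F G σ hG h δ hδ P hP hδP hpe

end Pool.Agent.Results.MP_e23cd6_ag.IteratedQuotientPairs
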