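import Mathlib
import Pool.Agent.TH710.KP.Main

/-!
MP_e23cd6_ag, Q1: klt pairs on varieties given by nested sums of high powers of linear forms.
-/

set_option autoImplicit false

namespace Pool.Agent.Results.MP_e23cd6_ag.NestedKltPairs

open FF Pool.Agent.W602.GT Pool.Agent.W603.GW Pool.Agent.W603.GX Pool.Agent.W603.GY
open Pool.Agent.TH710.ND (IsNested)
open Pool.Agent.TH710.KP

/-- Let `X` be a normal projective variety of dimension `w` over an algebraically closed field `k`
of characteristic zero, with function field `K`, and with a generically finite rational map to the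
projective variety `V`, given by `F_i = 0` in `P^n` (`y` is the image of the generic point), whose
image is not contained in `D`, the union of the hypersurfaces `Q_j = 0`; the `F_i` and the (finitely
many) `Q_j` are nested sums of high powers of linear forms (at each of at most `H + 1` levels at
most `s` summands, exponents at least `N ≥ (n + 1) (H + 1) (2 s + 1) ^ 5`). Let `Δ` be an effective
`ℝ`-divisor on `X` with coefficients `δ P ≥ 1 - 1 / N` at all prime divisors `P` of `X` over `D`.

(1) Either `K_X + Δ` is big, or there is a line through `y` in `V` on which each `Q_j` is a constant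
times a power of a linear form.

(2) If `X` is birational to an irreducible component of `V`, the pair `(X, Δ)` is klt, and the
discrepancies are nonnegative at the prime divisors (on all models) which are not over `D`, then
either `K_X + Δ` is big, or `K_X + Δ` is not pseudo-effective and the component is covered by
lines which meet `D` in at most two points, or the component is covered by lines which meet each
`Q_j = 0` in one point and `D` in at least three points. -/
theorem result {k : Type} [Field k] [IsAlgClosed k] [CharZero k] {n : ℕ} {ι κ : Type} [Finite κ]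
    {F : ι → MvPolynomial (Fin (n + 1)) k} {Q : κ → MvPolynomial (Fin (n + 1)) k} {s N H : ℕ}
    (hF : ∀ i, IsNested s N H (F i)) (hQ : ∀ j, IsNested s N H (Q j))
    (hN : (n + 1) * ((H + 1) * (2 * s + 1) ^ 5) ≤ N) {K : Type} [Field K]
    [Algebra k K] {w : ℕ} {y : Fin (n + 1) → K} (hy0 : y ≠ 0)
    (halg : Algebra.IsAlgebraic (coords k y) K) (hdim : Algebra.trdeg k K = w)
    (hmem : ∀ i, Pool.Agent.W602.GT.val y (F i) = 0)
    (hoffQ : ∀ j, Pool.Agent.W602.GT.val y (Q j) ≠ 0) {X : Place k K → Prop}
    {δ : Place k K → ℝ} (heff : ∀ P, Divisorial w P → X P → 0 ≤ δ P)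
    (hover : ∀ P : Place k K, Divisorial w P → X P → OffAny Q y P → 1 - 1 / (N : ℝ) ≤ δ P) :
    (PairBig k K w X δ ∨ LineEach F Q y) ∧
    (coords k y = ⊤ → IsComponentQ F Q y → IsKlt k K w X δ →
      (∀ P : Place k K, Divisorial w P → ¬ OffAny Q y P → δ P ≤ 0) →
      PairBig k K w X δ ∨ (¬ PairPsef k K w (fun _ => True) δ ∧ LineTwo Q y) ∨ LineThree Q y) :=
  ⟨big_or_line hF hQ (Pool.Agent.TH710.ND.bnd_le hN).1 hy0 halg hdim hmem hoffQ heff hover,
    fun htop hcomp hkl hoff => klt_dich hF hQ (Pool.Agent.TH710.ND.bnd_le hN).1
      ⟨hy0, hmem, hoffQ, htop, hdim⟩ hcomp hkl hoff hover⟩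

end Pool.Agent.Results.MP_e23cd6_ag.NestedKltPairs
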