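import Pool.Agent.TH585.SV.Lin

/-!
# Klt pairs with a linear system that has powerful members

Let `X` be a normal projective variety of dimension `d`, `Δ ≥ 0` an `ℝ`-divisor on `X`, for instance
the boundary of a klt pair, and `|V|` a linear system on `X` without fixed components, of dimension
`n > d`, which defines a generically finite rational map from `X` onto its image, a nondegenerate
subvariety of dimension `d` of `n`-dimensional projective space; the image may be any variety, for
instance rational, uniruled, very singular. Let `D i` (`i < q`) be finitely many members of `|V|`, in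
arbitrary position, with the only condition that the linear system does not decompose: `V` is not a
direct sum of two nonzero subspaces such that each `D i` belongs to one of them (for instance
`n + 2` members, any `n + 1` of which are linearly independent). If the largest multiplicity `m P`
in the divisors `D i` of any prime divisor `P` of `X` which is a component of some `D i` satisfies

  `1 - δ P ≤ m P / s`,   `δ P` the coefficient of `Δ` at `P`,

for a real number `s > (n + 2) (n - d + 1) (n - d + 2) / 2`, then `K_X + Δ` is big. If there are
`n + 3` different members then `n + 2` can be replaced by `n + 1`. So if `(X, Δ)` is klt and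
`K_X + Δ` is nef then `K_X + Δ` is semiample, by the base point free theorem (Kawamata, Shokurov; not
part of the Lean). The number `q` of members does not appear in the bound. Members of `|V|` are, for
instance, hypersurfaces of degree `e` in projective `d`-space, pulled back to a generically finite
cover, and hyperplane sections of subvarieties of projective `n`-space.

The function-field language of the starting repository is used. `K` is the function field of `X`;
the prime divisors of `X` are places `P` of `K` (`Place`, `Divisorial`), `P.ord` is the order along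
`P`, and `X` is given by the set of its prime divisors. The linear system is given by the finite
dimensional space `V` of rational functions: if `a` is the minimum of the orders at `P` of the
members of `V` then the multiplicity of `P` in the divisor of the system which is given by `f ∈ V` is
`P.ord f - a`. A section of `N (K_X + Δ)` is an `N`-canonical form `ω` (`IsPluri`), a function of `d`
rational vector fields, whose value on vector fields that are regular at `P` has order at least
`- N δ P`, for all prime divisors `P` of `X`.

Proof (`Pool.Agent.TH585.SV`). The form is a power of a generalised Wronskian divided by a product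
of members. The rows of the Wronskian are a basis `x` of `V`, the derivatives `E x` along `d` vector
fields, and `n - d` words in the first order operators of helper152 (`Pool.Agent.TH152.HY.Words`),
`f ↦ det (g₀, …, f, …, g_d) / ∏ g_j`, of minimal total length. The first `d + 1` rows transform under a
change of the vector fields like a canonical form and lose only one pole order at a prime divisor;
the words have lengths at most `2, 3, …, n - d + 1`, so the weight is at most
`1 + 2 + … + (n - d + 1)`. The product of members is given by the weights on the bases of an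
arrangement of helper152 and helper766.
-/

set_option autoImplicit false

open FF Pool.Agent.W602.GT

namespace Pool.Agent.Results.MP_e23cd6_ag.PowerfulLinearSystems

/-- The rational map which is given by the linear system `V` is generically finite onto its image:
the function field `K` is algebraic over the field generated by the quotients of the members. -/
def GenericallyFinite {K : Type} [Field K] [Algebra ℂ K] (V : Submodule ℂ K) : Prop :=
  Algebra.IsAlgebraic (IntermediateField.adjoin ℂ {y : K | ∃ f ∈ V, ∃ g ∈ V, y = f / g}) K

/-- `V` is the direct sum of two nonzero subspaces such that each `φ i` is in one of them. -/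
def Decomposes {q : ℕ} {K : Type} [Field K] [Algebra ℂ K] (V : Submodule ℂ K)
    (φ : Fin q → K) : Prop :=
  ∃ V₁ V₂ : Submodule ℂ K, V₁ ≠ ⊥ ∧ V₂ ≠ ⊥ ∧ V₁ ⊓ V₂ = ⊥ ∧ V₁ ⊔ V₂ = V ∧ ∀ i, φ i ∈ V₁ ∨ φ i ∈ V₂

/-- There are `r` members `φ i` of which no two are proportional. -/
def Different (r : ℕ) {q : ℕ} {K : Type} [Field K] [Algebra ℂ K] (φ : Fin q → K) : Prop :=
  ∃ τ : Fin r → Fin q, ∀ i j, i ≠ j → ∀ t : ℂ, φ (τ i) ≠ t • φ (τ j)

/-- The condition on the multiplicities: if the prime divisor `P` of `X` is a component of one of the
divisors `D i` (the order of `φ i` at `P` is not the minimum `a` of the orders of the members of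
`V`), then the largest multiplicity `P.ord (φ i) - a` of `P` in one of them is at least
`s (1 - δ P)`. -/
def Multiplicities (d : ℕ) {q : ℕ} {K : Type} [Field K] [Algebra ℂ K] (V : Submodule ℂ K)
    (φ : Fin q → K) (X : Set (Place ℂ K)) (δ : Place ℂ K → ℝ) (s : ℝ) : Prop :=
  ∀ P ∈ X, Divisorial d P → ∀ a : ℤ, (∀ f ∈ V, f = 0 ∨ a ≤ P.ord f) →
    (∃ f ∈ V, f ≠ 0 ∧ P.ord f = a) → (∃ i, P.ord (φ i) ≠ a) →
    ∃ i, s * (1 - δ P) ≤ ((P.ord (φ i) - a : ℤ) : ℝ)

/-- `ω` is a section of `N (K_X + Δ)`, where `X` is given by the set of its prime divisors, and `Δ` has
the coefficient `δ P` at `P`: an `N`-canonical form whose values on vector fields which are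
regular at `P` have order at least `- N δ P`, for all prime divisors `P` of `X`. -/
def IsSection {K : Type} [Field K] [Algebra ℂ K] (d : ℕ) (X : Set (Place ℂ K))
    (δ : Place ℂ K → ℝ) (N : ℕ) (ω : (Fin d → Derivation ℂ K K) → K) : Prop :=
  IsPluri N ω ∧ ∀ P ∈ X, Divisorial d P → ∀ D : Fin d → Derivation ℂ K K,
    (∀ i, DerReg P (D i)) → ω D = 0 ∨ -(N * δ P) ≤ (P.ord (ω D) : ℝ)

/-- `K_X + Δ` is big: some positive multiple has sections with `d` algebraically independent ratios,
where `d` is the dimension of `X`. -/
def IsBig {K : Type} [Field K] [Algebra ℂ K] (d : ℕ) (X : Set (Place ℂ K))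
    (δ : Place ℂ K → ℝ) : Prop :=
  ∃ N : ℕ, 0 < N ∧ ∃ ω : Fin (d + 1) → (Fin d → Derivation ℂ K K) → K,
    (∀ j, IsSection d X δ N (ω j)) ∧
    ∃ D, ω 0 D ≠ 0 ∧ AlgebraicIndependent ℂ (fun i : Fin d => ω i.succ D / ω 0 D)

/-- **Bigness.** Let `K` be the function field of a variety `X` of dimension `d ≥ 1`, `V` a linear
system of dimension `n > d` on `X` which defines a generically finite map onto the image, `φ i`
nonzero members which do not decompose `V`, and `Δ ≥ 0` a real divisor on `X` with coefficients
`δ P ≥ 1 - m P / s` at the components `P` of the divisors of the members, where `m P` is the largest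
multiplicity and `2 s > (n + 2) (n - d + 1) (n - d + 2)`, or
`2 s > (n + 1) (n - d + 1) (n - d + 2)` if there are `n + 3` different members. Then `K_X + Δ` is big.
(For `n = d`, dominant maps to projective space, see `BigArrangementPairs` of helper766.) -/
theorem result (d n q : ℕ) (hd : 1 ≤ d) (hdn : d < n) (K : Type) [Field K] [Algebra ℂ K]
    (hK : Algebra.trdeg ℂ K = d) (V : Submodule ℂ K) (hV : Module.finrank ℂ V = n + 1)
    (hgf : GenericallyFinite V) (φ : Fin q → K) (hφV : ∀ i, φ i ∈ V) (hφ0 : ∀ i, φ i ≠ 0)
    (hdec : ¬ Decomposes V φ) (X : Set (Place ℂ K)) (δ : Place ℂ K → ℝ) (hδ : ∀ P ∈ X, 0 ≤ δ P)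
    (s : ℝ)
    (hs : ((n : ℝ) + 2) * (((n : ℝ) - d + 1) * ((n : ℝ) - d + 2)) < 2 * s ∨
      (Different (n + 3) φ ∧ ((n : ℝ) + 1) * (((n : ℝ) - d + 1) * ((n : ℝ) - d + 2)) < 2 * s))
    (h : Multiplicities d V φ X δ s) : IsBig d X δ := by
  obtain ⟨k, rfl⟩ := Nat.exists_eq_add_of_lt hdn
  have e : ((d + k + 1 : ℕ) : ℝ) - d = ((k + 1 : ℕ) : ℝ) := by
    push_cast
    ring
  rw [e] at hs
  exact Pool.Agent.TH585.SV.lin_big (k := k + 1) hd (by omega) hK hV hgf hφV hφ0 hdec X δ hδ hs h

end Pool.Agent.Results.MP_e23cd6_ag.PowerfulLinearSystems
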